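import Mathlib

set_option autoImplicit false

open Finset

namespace Pool.Agent.MP_521650_an

lemma exists_residue (n : ℕ) (u : ℕ) (hu : Odd u) (v : ℤ) :
    ∃ b : ℕ, b < 2 ^ n ∧ ((2 : ℤ) ^ n) ∣ v - b * u := by
  have hc : IsCoprime (u : ℤ) ((2 : ℤ) ^ n) := by
    apply IsCoprime.pow_right
    rw [Int.isCoprime_iff_gcd_eq_one]
    have : Nat.Coprime u 2 := Nat.coprime_two_right.2 hu
    simpa [Int.gcd] using this
  obtain ⟨p, q, hpq⟩ := hc
  have hpos : (0 : ℤ) < 2 ^ n := by positivity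
  refine ⟨((v * p) % 2 ^ n).toNat, ?_, ?_⟩
  · have h1 := Int.emod_lt_of_pos (v * p) hpos
    have h2 := Int.emod_nonneg (v * p) hpos.ne'
    zify
    rw [Int.toNat_of_nonneg h2]
    exact h1
  · have h2 := Int.emod_nonneg (v * p) hpos.ne'
    rw [Int.toNat_of_nonneg h2]
    have h3 := Int.emod_add_mul_ediv (v * p) (2 ^ n)
    refine ⟨(v * p / 2 ^ n) * u + v * q, ?_⟩
    have h4 : (v * p) % 2 ^ n = v * p - 2 ^ n * (v * p / 2 ^ n) := by linarith
    rw [h4]
    linear_combination (-v) * hpq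

lemma residues (n : ℕ) (u : ℕ → ℕ) (hu : ∀ j, Odd (u j)) (m : ℕ) (v : ℤ) :
    ∃ B : ℕ → ℕ, (∀ j, B j < 2 ^ n) ∧ ∃ w : ℤ,
      v = ∑ j ∈ range m, (B j : ℤ) * u j * ((2 : ℤ) ^ n) ^ (m - 1 - j) + w * ((2 : ℤ) ^ n) ^ m := by
  induction m generalizing v with
  | zero => exact ⟨fun _ => 0, fun _ => by positivity, v, by simp⟩
  | succ m ih =>
    obtain ⟨b, hb, v', hv'⟩ := exists_residue n (u m) (hu m) v
    obtain ⟨B, hB, w, hw⟩ := ih v'
    refine ⟨fun j => if j = m then b else B j, fun j => ?_, w, ?_⟩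
    · dsimp only
      split_ifs
      · exact hb
      · exact hB j
    · rw [sum_range_succ]
      have h1 : ∑ j ∈ range m, (((if j = m then b else B j : ℕ) : ℤ)) * u j *
          ((2 : ℤ) ^ n) ^ (m + 1 - 1 - j)
          = (2 : ℤ) ^ n * ∑ j ∈ range m, (B j : ℤ) * u j * ((2 : ℤ) ^ n) ^ (m - 1 - j) := by
        rw [mul_sum]
        refine sum_congr rfl fun j hj => ?_
        rw [mem_range] at hj
        rw [if_neg hj.ne]
        have : m + 1 - 1 - j = (m - 1 - j) + 1 := by omega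
        rw [this, pow_succ]
        ring
      rw [h1]
      simp only [if_true, add_tsub_cancel_right, tsub_self, pow_zero, mul_one]
      have h2 : v = b * u m + 2 ^ n * v' := by linarith
      rw [h2, hw]
      ring

/-- approximation of reals by `B₀ + ∑ Bⱼ tⱼ` with bounded nonnegative integer coefficients. -/
lemma approx (m n : ℕ) (t : ℕ → ℝ) (u : ℕ → ℕ) (hu : ∀ j, Odd (u j))
    (h1 : ∀ j < m, (u j : ℝ) / ((2 : ℝ) ^ n) ^ (j + 1) ≤ t j)
    (h2 : ∑ j ∈ range m, (t j - (u j : ℝ) / ((2 : ℝ) ^ n) ^ (j + 1)) * 2 ^ n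
      ≤ 1 / ((2 : ℝ) ^ n) ^ m)
    (y : ℝ) (hy1 : (∑ j ∈ range m, t j) * 2 ^ n ≤ y) (hy2 : y < 2 ^ n) :
    ∃ (B0 : ℕ) (B : ℕ → ℕ), B0 < 2 ^ n ∧ (∀ j, B j < 2 ^ n) ∧
      |y - (B0 + ∑ j ∈ range m, (B j : ℝ) * t j)| ≤ 1 / ((2 : ℝ) ^ n) ^ m := by
  set N : ℝ := (2 : ℝ) ^ n with hN
  have hNpos : 0 < N := by positivity
  have hN1 : 1 ≤ N := one_le_pow₀ (by norm_num)
  set v : ℤ := ⌊y * N ^ m⌋ with hv
  obtain ⟨B, hB, w, hw⟩ := residues n u hu m v
  have hNm : 0 < N ^ m := by positivity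
  -- real form
  have hwR : (v : ℝ) / N ^ m = (∑ j ∈ range m, (B j : ℝ) * (u j / N ^ (j + 1))) + w := by
    have : (v : ℝ) = ∑ j ∈ range m, (B j : ℝ) * u j * N ^ (m - 1 - j) + w * N ^ m := by
      have := congrArg (fun z : ℤ => (z : ℝ)) hw
      push_cast at this
      exact this
    rw [this, add_div, mul_div_cancel_right₀ _ hNm.ne', sum_div]
    congr 1
    refine sum_congr rfl fun j hj => ?_
    rw [mem_range] at hj
    have e : N ^ m = N ^ (m - 1 - j) * N ^ (j + 1) := by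
      rw [← pow_add]; congr 1; omega
    rw [e]
    have p1 : N ^ (m - 1 - j) ≠ 0 := by positivity
    have p2 : N ^ (j + 1) ≠ 0 := by positivity
    field_simp
  have hvle : (v : ℝ) / N ^ m ≤ y := by
    rw [div_le_iff₀ hNm]; exact Int.floor_le _
  have hvgt : y - 1 / N ^ m < (v : ℝ) / N ^ m := by
    rw [lt_div_iff₀ hNm, sub_mul, div_mul_cancel₀ _ hNm.ne']
    have := Int.lt_floor_add_one (y * N ^ m)
    linarith
  have hBle : ∀ j, (B j : ℝ) ≤ N - 1 := by
    intro j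
    have := hB j
    have h3 : (B j : ℝ) + 1 ≤ N := by
      rw [hN]; exact_mod_cast this
    linarith
  have hsum_nonneg : 0 ≤ ∑ j ∈ range m, (B j : ℝ) * (u j / N ^ (j + 1)) :=
    sum_nonneg fun j _ => by positivity
  have hw0 : 0 ≤ w := by
    have h3 : ∑ j ∈ range m, (B j : ℝ) * (u j / N ^ (j + 1)) ≤ (N - 1) * ∑ j ∈ range m, t j := by
      rw [mul_sum]
      refine sum_le_sum fun j hj => ?_
      rw [mem_range] at hj
      apply mul_le_mul (hBle j) (h1 j hj) (by positivity) (by linarith)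
    have h4 : 0 ≤ ∑ j ∈ range m, t j := sum_nonneg fun j hj => by
      rw [mem_range] at hj
      exact le_trans (by positivity) (h1 j hj)
    have h5 : 1 / N ^ m ≤ 1 := by
      rw [div_le_one hNm]; exact one_le_pow₀ hN1
    have h6 : (-1 : ℝ) < w := by nlinarith
    have h7 : (-1 : ℤ) < w := by exact_mod_cast h6
    omega
  have hwlt : (w : ℝ) < N := by linarith
  refine ⟨w.toNat, B, ?_, hB, ?_⟩
  · have : (w.toNat : ℤ) = w := Int.toNat_of_nonneg hw0
    have h8 : ((w.toNat : ℤ) : ℝ) < (2 : ℝ) ^ n := by rw [this]; exact hwlt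
    exact_mod_cast h8
  · have e1 : ((w.toNat : ℕ) : ℝ) = (w : ℝ) := by
      have : (w.toNat : ℤ) = w := Int.toNat_of_nonneg hw0
      exact_mod_cast congrArg (fun z : ℤ => (z : ℝ)) this
    rw [e1]
    have e2 : y - (w + ∑ j ∈ range m, (B j : ℝ) * t j)
        = (y - v / N ^ m) - ∑ j ∈ range m, (B j : ℝ) * (t j - u j / N ^ (j + 1)) := by
      rw [hwR]
      simp only [mul_sub, sum_sub_distrib]
      ring
    rw [e2]
    have e3 : ∑ j ∈ range m, (B j : ℝ) * (t j - u j / N ^ (j + 1)) ≤ 1 / N ^ m := by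
      refine le_trans (sum_le_sum fun j hj => ?_) h2
      rw [mem_range] at hj
      rw [mul_comm]
      apply mul_le_mul_of_nonneg_left _ (sub_nonneg.2 (h1 j hj))
      have := hBle j
      linarith
    have e4 : 0 ≤ ∑ j ∈ range m, (B j : ℝ) * (t j - u j / N ^ (j + 1)) :=
      sum_nonneg fun j hj => by
        rw [mem_range] at hj
        exact mul_nonneg (by positivity) (sub_nonneg.2 (h1 j hj))
    rw [abs_le]
    constructor <;> linarith

end Pool.Agent.MP_521650_an
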