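import Mathlib

set_option autoImplicit false

open Finset

namespace Pool.Agent.MP_521650_an

/-- the special levels. -/
def nn (m k : ℕ) : ℕ := (m + 3) ^ (k + 1)

lemma nn_strictMono (m : ℕ) : StrictMono (nn m) := by
  intro a b hab
  unfold nn
  exact Nat.pow_lt_pow_right (by omega) (by omega)

lemma nn_add (m k i : ℕ) : nn m k + i ≤ nn m (i + k) := by
  induction i with
  | zero => simp
  | succ i ih =>
    have := nn_strictMono m (show i + k < i + 1 + k by omega)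
    omega

lemma nn_succ (m k : ℕ) : nn m (k + 1) = (m + 3) * nn m k := by
  unfold nn; ring

lemma nn_ge (m k : ℕ) : m + 3 ≤ nn m k := by
  unfold nn
  calc m + 3 = (m + 3) ^ 1 := by ring
    _ ≤ _ := Nat.pow_le_pow_right (by omega) (by omega)

/-- the translations. -/
noncomputable def tt (m j : ℕ) : ℝ := ∑' i, (1 / 2 : ℝ) ^ ((j + 1) * nn m i)

lemma term_le (m j k i : ℕ) :
    (1 / 2 : ℝ) ^ ((j + 1) * nn m (i + k)) ≤ (1 / 2 : ℝ) ^ (nn m k) * (1 / 2 : ℝ) ^ i := by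
  rw [← pow_add]
  apply pow_le_pow_of_le_one (by norm_num) (by norm_num)
  calc nn m k + i ≤ nn m (i + k) := nn_add m k i
    _ ≤ (j + 1) * nn m (i + k) := Nat.le_mul_of_pos_left _ (by omega)

lemma summable_shift (m j k : ℕ) :
    Summable (fun i => (1 / 2 : ℝ) ^ ((j + 1) * nn m (i + k))) := by
  refine Summable.of_nonneg_of_le (fun i => by positivity) (fun i => term_le m j k i) ?_
  exact (summable_geometric_of_lt_one (by norm_num) (by norm_num)).mul_left _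

lemma tail_le (m j k : ℕ) :
    ∑' i, (1 / 2 : ℝ) ^ ((j + 1) * nn m (i + k)) ≤ 2 * (1 / 2 : ℝ) ^ (nn m k) := by
  have h1 : ∑' i, (1 / 2 : ℝ) ^ ((j + 1) * nn m (i + k))
      ≤ ∑' i, (1 / 2 : ℝ) ^ (nn m k) * (1 / 2 : ℝ) ^ i :=
    (summable_shift m j k).tsum_le_tsum (fun i => term_le m j k i)
      ((summable_geometric_of_lt_one (by norm_num) (by norm_num)).mul_left _)
  rw [tsum_mul_left, tsum_geometric_of_lt_one (by norm_num) (by norm_num)] at h1
  linarith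

lemma tt_eq (m j k : ℕ) : tt m j = ∑ i ∈ range (k + 1), (1 / 2 : ℝ) ^ ((j + 1) * nn m i)
    + ∑' i, (1 / 2 : ℝ) ^ ((j + 1) * nn m (i + (k + 1))) := by
  have h := summable_shift m j 0
  simp only [add_zero] at h
  exact (h.sum_add_tsum_nat_add (k + 1)).symm

lemma tt_pos (m j : ℕ) : 0 < tt m j := by
  rw [tt_eq m j 0]
  have : 0 ≤ ∑' i, (1 / 2 : ℝ) ^ ((j + 1) * nn m (i + (0 + 1))) := tsum_nonneg fun i => by positivity
  have : 0 < ∑ i ∈ range (0 + 1), (1 / 2 : ℝ) ^ ((j + 1) * nn m i) := by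
    rw [zero_add, sum_range_one]; positivity
  linarith

lemma sum_tt_le (m : ℕ) : ∑ j ∈ range m, tt m j ≤ 1 / 2 := by
  have h1 : ∀ j, tt m j ≤ 2 * (1 / 2 : ℝ) ^ (m + 3) := by
    intro j
    have := tail_le m j 0
    simp only [add_zero] at this
    refine this.trans ?_
    have h2 : (1 / 2 : ℝ) ^ (nn m 0) ≤ (1 / 2 : ℝ) ^ (m + 3) :=
      pow_le_pow_of_le_one (by norm_num) (by norm_num) (nn_ge m 0)
    linarith
  calc ∑ j ∈ range m, tt m j ≤ ∑ j ∈ range m, 2 * (1 / 2 : ℝ) ^ (m + 3) :=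
        sum_le_sum fun j _ => h1 j
    _ = m * (2 * (1 / 2 : ℝ) ^ (m + 3)) := by rw [sum_const, card_range, nsmul_eq_mul]
    _ ≤ 1 / 2 := by
      have h3 : (m : ℝ) ≤ 2 ^ m := by exact_mod_cast Nat.lt_two_pow_self.le
      have h4 : (1 / 2 : ℝ) ^ (m + 3) = (1 / 8) * (1 / 2 ^ m) := by
        rw [pow_add, one_div_pow]; ring
      rw [h4]
      have h5 : (0 : ℝ) < 2 ^ m := by positivity
      have h6 : (m : ℝ) * (1 / 2 ^ m) ≤ 1 := by
        rw [mul_one_div, div_le_one h5]; exact h3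
      nlinarith

/-- the numerators. -/
def uu (m k j : ℕ) : ℕ := ∑ i ∈ range (k + 1), 2 ^ ((j + 1) * (nn m k - nn m i))

lemma uu_odd (m k j : ℕ) : Odd (uu m k j) := by
  unfold uu
  rw [sum_range_succ]
  simp only [tsub_self, mul_zero, pow_zero]
  apply Even.add_one
  apply even_sum
  intro i hi
  rw [mem_range] at hi
  have := nn_strictMono m hi
  apply Even.pow_of_ne_zero even_two
  have h : 0 < nn m k - nn m i := by omega
  positivity

lemma uu_div (m k j : ℕ) : (uu m k j : ℝ) / ((2 : ℝ) ^ nn m k) ^ (j + 1)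
    = ∑ i ∈ range (k + 1), (1 / 2 : ℝ) ^ ((j + 1) * nn m i) := by
  unfold uu
  push_cast
  rw [sum_div]
  refine sum_congr rfl fun i hi => ?_
  rw [mem_range] at hi
  have hle : nn m i ≤ nn m k := (nn_strictMono m).monotone (by omega)
  rw [← pow_mul, one_div, inv_pow, div_eq_iff (by positivity), inv_mul_eq_div,
    eq_div_iff (by positivity), ← pow_add]
  congr 1
  rw [← mul_add, Nat.sub_add_cancel hle, mul_comm]

theorem tt_approx (m k : ℕ) :
    (∀ j < m, (uu m k j : ℝ) / ((2 : ℝ) ^ nn m k) ^ (j + 1) ≤ tt m j) ∧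
    ∑ j ∈ range m, (tt m j - (uu m k j : ℝ) / ((2 : ℝ) ^ nn m k) ^ (j + 1)) * 2 ^ nn m k
      ≤ 1 / ((2 : ℝ) ^ nn m k) ^ m := by
  constructor
  · intro j _
    rw [uu_div, tt_eq m j k]
    have : 0 ≤ ∑' i, (1 / 2 : ℝ) ^ ((j + 1) * nn m (i + (k + 1))) :=
      tsum_nonneg fun i => by positivity
    linarith
  · have h1 : ∀ j ∈ range m, (tt m j - (uu m k j : ℝ) / ((2 : ℝ) ^ nn m k) ^ (j + 1)) * 2 ^ nn m k
        ≤ 2 * (1 / 2 : ℝ) ^ (nn m (k + 1)) * 2 ^ nn m k := by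
      intro j _
      rw [uu_div, tt_eq m j k]
      have := tail_le m j (k + 1)
      apply mul_le_mul_of_nonneg_right _ (by positivity)
      linarith
    refine (sum_le_sum h1).trans ?_
    rw [sum_const, card_range, nsmul_eq_mul, nn_succ]
    set n := nn m k with hn
    have hnge : m + 3 ≤ n := nn_ge m k
    have e1 : (1 / 2 : ℝ) ^ ((m + 3) * n) = 1 / ((2 : ℝ) ^ n) ^ m * (1 / 2 ^ (3 * n)) := by
      rw [add_mul, pow_add, ← pow_mul, one_div, inv_pow, inv_pow, one_div, one_div, mul_comm m n]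
    rw [e1]
    have e2 : (m : ℝ) * (2 * (1 / ((2 : ℝ) ^ n) ^ m * (1 / 2 ^ (3 * n))) * 2 ^ n)
        = (1 / ((2 : ℝ) ^ n) ^ m) * ((2 * m) / 2 ^ (2 * n)) := by
      have : (2 : ℝ) ^ (3 * n) = 2 ^ (2 * n) * 2 ^ n := by rw [← pow_add]; congr 1; ring
      rw [this]
      field_simp
    rw [e2]
    have e3 : (2 * m : ℝ) / 2 ^ (2 * n) ≤ 1 := by
      rw [div_le_one (by positivity)]
      have h3 : 2 * m ≤ 2 ^ (2 * n) := by
        calc 2 * m ≤ 2 * n := by omega
          _ ≤ 2 ^ (2 * n) := Nat.lt_two_pow_self.le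
      exact_mod_cast h3
    calc (1 / ((2 : ℝ) ^ n) ^ m) * ((2 * m) / 2 ^ (2 * n)) ≤ (1 / ((2 : ℝ) ^ n) ^ m) * 1 :=
          mul_le_mul_of_nonneg_left e3 (by positivity)
      _ = _ := mul_one _

end Pool.Agent.MP_521650_an
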