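import Mathlib
import Pool.Agent.MP_521650_an.Arith
import Pool.Agent.MP_521650_an.Liou

set_option autoImplicit false

open Finset

namespace Pool.Agent.MP_521650_an

/-- translation lengths: `1, t₀, t₁, …`. -/
noncomputable def TT (m : ℕ) (j : Fin (m + 1)) : ℝ := Fin.cases 1 (fun i : Fin m => tt m i) j

/-- total length of the interval. -/
noncomputable def LL (m : ℕ) : ℝ := 2 * ∑ j, TT m j

/-- digit translation. -/
noncomputable def cc (m : ℕ) (b : Fin (m + 1) → Bool) : ℝ := ∑ j, if b j then TT m j else 0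

/-- the alphabet. -/
abbrev Al (m : ℕ) := Option (Fin (m + 1) → Bool)

/-- the one-dimensional maps. -/
noncomputable def f1 (m : ℕ) : Al m → ℝ → ℝ
  | none, x => LL m - x / 2
  | some b, x => x / 2 + cc m b

/-- words acting on the line. -/
noncomputable def w1 (m : ℕ) : List (Al m) → ℝ → ℝ
  | [], x => x
  | i :: a, x => f1 m i (w1 m a x)

/-- zero letter. -/
def zl (m : ℕ) : Al m := some fun _ => false

/-- full letter. -/
def ol (m : ℕ) : Al m := some fun _ => true

lemma sum_TT (m : ℕ) : ∑ j, TT m j = 1 + ∑ j ∈ range m, tt m j := by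
  rw [Fin.sum_univ_succ]
  simp only [TT, Fin.cases_zero, Fin.cases_succ]
  rw [← Fin.sum_univ_eq_sum_range (fun j => tt m j)]

lemma TT_nonneg (m : ℕ) (j : Fin (m + 1)) : 0 ≤ TT m j := by
  refine Fin.cases ?_ (fun i => ?_) j
  · simp [TT]
  · simp only [TT, Fin.cases_succ]; exact (tt_pos m i).le

lemma LL_ge (m : ℕ) : 2 ≤ LL m := by
  rw [LL, sum_TT]
  have : 0 ≤ ∑ j ∈ range m, tt m j := sum_nonneg fun j _ => (tt_pos m j).le
  linarith

lemma LL_le (m : ℕ) : LL m ≤ 3 := by
  rw [LL, sum_TT]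
  have := sum_tt_le m
  linarith

lemma cc_nonneg (m : ℕ) (b : Fin (m + 1) → Bool) : 0 ≤ cc m b :=
  sum_nonneg fun j _ => by split_ifs; exacts [TT_nonneg m j, le_rfl]

lemma cc_le (m : ℕ) (b : Fin (m + 1) → Bool) : cc m b ≤ LL m / 2 := by
  rw [LL, mul_div_cancel_left₀ _ two_ne_zero]
  exact sum_le_sum fun j _ => by split_ifs; exacts [le_rfl, TT_nonneg m j]

lemma f1_zl (m : ℕ) (x : ℝ) : f1 m (zl m) x = x / 2 := by
  simp [f1, zl, cc]

lemma f1_ol (m : ℕ) (x : ℝ) : f1 m (ol m) x = x / 2 + LL m / 2 := by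
  simp [f1, ol, cc, LL]

lemma f1_mem (m : ℕ) (i : Al m) {x : ℝ} (hx : x ∈ Set.Icc 0 (LL m)) :
    f1 m i x ∈ Set.Icc 0 (LL m) := by
  obtain ⟨h0, h1⟩ := hx
  cases i with
  | none => simp only [f1]; constructor <;> linarith
  | some b =>
    simp only [f1]
    have := cc_nonneg m b
    have := cc_le m b
    constructor <;> linarith

lemma f1_surj (m : ℕ) {x : ℝ} (hx : x ∈ Set.Icc 0 (LL m)) :
    ∃ i : Al m, ∃ y ∈ Set.Icc 0 (LL m), f1 m i y = x := by
  obtain ⟨h0, h1⟩ := hx
  rcases le_total x (LL m / 2) with h | h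
  · exact ⟨zl m, 2 * x, ⟨by linarith, by linarith⟩, by rw [f1_zl]; ring⟩
  · exact ⟨ol m, 2 * x - LL m, ⟨by linarith, by linarith⟩, by rw [f1_ol]; ring⟩

lemma f1_dist (m : ℕ) (i : Al m) (x y : ℝ) : |f1 m i x - f1 m i y| = |x - y| / 2 := by
  cases i with
  | none =>
    simp only [f1]
    have : LL m - x / 2 - (LL m - y / 2) = -((x - y) / 2) := by ring
    rw [this, abs_neg, abs_div, abs_two]
  | some b =>
    simp only [f1]
    have : x / 2 + cc m b - (y / 2 + cc m b) = (x - y) / 2 := by ring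
    rw [this, abs_div, abs_two]

lemma w1_append (m : ℕ) (a b : List (Al m)) (x : ℝ) : w1 m (a ++ b) x = w1 m a (w1 m b x) := by
  induction a with
  | nil => rfl
  | cons i a ih => simp only [List.cons_append, w1, ih]

lemma w1_dist (m : ℕ) (a : List (Al m)) (x y : ℝ) :
    |w1 m a x - w1 m a y| = |x - y| / 2 ^ a.length := by
  induction a with
  | nil => simp [w1]
  | cons i a ih =>
    simp only [w1, List.length_cons]
    rw [f1_dist, ih, pow_succ, div_div]

lemma w1_zl (m r : ℕ) (x : ℝ) : w1 m (List.replicate r (zl m)) x = x / 2 ^ r := by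
  induction r with
  | zero => simp [w1]
  | succ r ih => rw [List.replicate_succ]; simp only [w1]; rw [ih, f1_zl, pow_succ, div_div]

lemma w1_ol (m r : ℕ) (x : ℝ) :
    w1 m (List.replicate r (ol m)) x = LL m - (LL m - x) / 2 ^ r := by
  induction r with
  | zero => simp [w1]
  | succ r ih =>
    rw [List.replicate_succ]; simp only [w1]; rw [ih, f1_ol, pow_succ]
    field_simp; ring

/-- every integer combination is realised by a word. -/
lemma exists_word (m n : ℕ) (B : Fin (m + 1) → ℕ) (hB : ∀ j, B j < 2 ^ n) :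
    ∃ a : List (Al m), a.length = n ∧ w1 m a 0 = 2 / 2 ^ n * ∑ j, (B j : ℝ) * TT m j := by
  induction n generalizing B with
  | zero =>
    refine ⟨[], rfl, ?_⟩
    have : ∀ j, B j = 0 := fun j => by have := hB j; simpa using this
    simp [w1, this]
  | succ n ih =>
    obtain ⟨a, ha, ha'⟩ := ih (fun j => B j % 2 ^ n) (fun j => Nat.mod_lt _ (by positivity))
    refine ⟨some (fun j => decide (2 ^ n ≤ B j)) :: a, by simp [ha], ?_⟩
    simp only [w1, f1]
    rw [ha', cc, pow_succ]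
    have h1 : ∀ j, (if (decide (2 ^ n ≤ B j)) = true then TT m j else 0)
        = 2 / (2 ^ n * 2) * ((B j : ℝ) * TT m j) - 2 / 2 ^ n * (((B j % 2 ^ n : ℕ) : ℝ) * TT m j) / 2 := by
      intro j
      have h2 := hB j
      rw [pow_succ] at h2
      have hp : (0 : ℝ) < 2 ^ n := by positivity
      by_cases hc : 2 ^ n ≤ B j
      · have h3 : B j % 2 ^ n = B j - 2 ^ n := by
          rw [Nat.mod_eq_sub_mod hc, Nat.mod_eq_of_lt (by omega)]
        rw [h3, Nat.cast_sub hc]
        simp only [hc, decide_true, if_true]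
        push_cast
        field_simp
        ring
      · have h3 : B j % 2 ^ n = B j := Nat.mod_eq_of_lt (by omega)
        rw [h3]
        simp only [hc, decide_false]
        field_simp
        simp
    simp_rw [h1]
    rw [sum_sub_distrib, ← mul_sum]
    have h4 : ∑ j, 2 / 2 ^ n * (((B j % 2 ^ n : ℕ) : ℝ) * TT m j) / 2
        = 2 / 2 ^ n * (∑ j, ((B j % 2 ^ n : ℕ) : ℝ) * TT m j) / 2 := by
      rw [← sum_div, ← mul_sum]
    rw [h4]
    ring

lemma word_mid (m k : ℕ) (x : ℝ) (h1 : 2 * ∑ j ∈ range m, tt m j ≤ x) (h2 : x < 2) :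
    ∃ a : List (Al m), a.length = nn m k ∧
      |x - w1 m a 0| ≤ 2 / ((2 : ℝ) ^ nn m k) ^ (m + 1) := by
  set n := nn m k with hn
  have hp : (0 : ℝ) < 2 ^ n := by positivity
  obtain ⟨hA, hB⟩ := tt_approx m k
  obtain ⟨B0, B, hB0, hBj, hBB⟩ := approx m n (tt m) (uu m k) (uu_odd m k) hA hB
    (x * 2 ^ n / 2) (by nlinarith) (by nlinarith)
  obtain ⟨a, ha, ha'⟩ := exists_word m n (Fin.cases B0 (fun i : Fin m => B i)) (by
    intro j
    refine Fin.cases ?_ (fun i => ?_) j
    · simpa using hB0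
    · simpa using hBj i)
  refine ⟨a, ha, ?_⟩
  rw [ha', Fin.sum_univ_succ]
  simp only [TT, Fin.cases_zero, Fin.cases_succ, mul_one]
  rw [← Fin.sum_univ_eq_sum_range (fun j => (B j : ℝ) * tt m j)] at hBB
  have e : x - 2 / 2 ^ n * ((B0 : ℝ) + ∑ i : Fin m, (B i : ℝ) * tt m i)
      = 2 / 2 ^ n * (x * 2 ^ n / 2 - ((B0 : ℝ) + ∑ i : Fin m, (B i : ℝ) * tt m i)) := by
    field_simp
  rw [e, abs_mul, abs_of_pos (by positivity : (0 : ℝ) < 2 / 2 ^ n)]
  calc 2 / 2 ^ n * |x * 2 ^ n / 2 - ((B0 : ℝ) + ∑ i : Fin m, (B i : ℝ) * tt m i)|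
      ≤ 2 / 2 ^ n * (1 / (2 ^ n) ^ m) := mul_le_mul_of_nonneg_left hBB (by positivity)
    _ = 2 / ((2 : ℝ) ^ n) ^ (m + 1) := by rw [pow_succ]; field_simp

/-- every positive number at most `2` can be doubled into `(1, 2]`. -/
lemma exists_double {w : ℝ} (h0 : 0 < w) (h2 : w ≤ 2) : ∃ r : ℕ, 1 < 2 ^ r * w ∧ 2 ^ r * w ≤ 2 := by
  by_contra hcon
  push Not at hcon
  have h3 : ∀ r : ℕ, 2 ^ r * w ≤ 1 := by
    intro r
    induction r with
    | zero =>
      by_contra h
      push Not at h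
      have := hcon 0 h
      simp at this
      linarith
    | succ r ih =>
      by_contra h
      push Not at h
      have := hcon (r + 1) h
      rw [pow_succ] at this
      linarith
  obtain ⟨n, hn⟩ := pow_unbounded_of_one_lt (1 / w) (one_lt_two : (1 : ℝ) < 2)
  have := h3 n
  rw [div_lt_iff₀ h0] at hn
  linarith

lemma reduce (m : ℕ) (x : ℝ) (h0 : 0 < x) (h1 : x < LL m) :
    ∃ (b : List (Al m)) (x' : ℝ), 2 * ∑ j ∈ range m, tt m j ≤ x' ∧ x' < 2 ∧ w1 m b x' = x := by
  have hs := sum_tt_le m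
  have hL : LL m = 2 + 2 * ∑ j ∈ range m, tt m j := by rw [LL, sum_TT]; ring
  rcases lt_or_ge x 2 with h | h
  · -- double `x` into `[1, 2)`
    obtain ⟨r, hr1, hr2⟩ := exists_double h0 h.le
    rcases hr2.lt_or_eq with hlt | heq
    · refine ⟨List.replicate r (zl m), 2 ^ r * x, by linarith, hlt, ?_⟩
      rw [w1_zl]; field_simp
    · -- then `r ≥ 1` and `2^(r-1) x = 1`
      cases r with
      | zero => simp at heq; linarith
      | succ r =>
        refine ⟨List.replicate r (zl m), 2 ^ r * x, ?_, ?_, ?_⟩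
        · rw [pow_succ] at heq; linarith
        · rw [pow_succ] at heq; linarith
        · rw [w1_zl]; field_simp
  · obtain ⟨r, hr1, hr2⟩ := exists_double (w := LL m - x) (by linarith) (by linarith)
    refine ⟨List.replicate r (ol m), LL m - 2 ^ r * (LL m - x), by linarith, by linarith, ?_⟩
    rw [w1_ol]
    field_simp
    ring

/-- good approximation along the special levels, for every point of the interval. -/
theorem good (m : ℕ) (x : ℝ) (hx : x ∈ Set.Icc 0 (LL m)) :
    ∃ K : ℕ, ∀ K' ≥ K, ∀ k, ∃ a : List (Al m), a.length = nn m k + K' ∧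
      |x - w1 m a 0| ≤ 2 / ((2 : ℝ) ^ nn m k) ^ (m + 1) := by
  rcases hx.1.eq_or_lt with h0 | h0
  · refine ⟨0, fun K' _ k => ⟨List.replicate (nn m k + K') (zl m), by simp, ?_⟩⟩
    rw [w1_zl, ← h0]; simp
    positivity
  rcases hx.2.eq_or_lt with h1 | h1
  · refine ⟨1, fun K' hK' k => ⟨none :: List.replicate (nn m k + K' - 1) (zl m), ?_, ?_⟩⟩
    · simp; omega
    · simp only [w1]
      rw [w1_zl, h1]; simp [f1]
      positivity
  obtain ⟨b, x', h2, h3, h4⟩ := reduce m x h0 h1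
  refine ⟨b.length, fun K' hK' k => ?_⟩
  obtain ⟨a, ha, ha'⟩ := word_mid m k x' h2 h3
  refine ⟨b ++ (a ++ List.replicate (K' - b.length) (zl m)), ?_, ?_⟩
  · simp [ha]; omega
  · rw [w1_append, w1_append, w1_zl, zero_div, ← h4, w1_dist]
    refine le_trans (div_le_self (abs_nonneg _) (one_le_pow₀ (by norm_num))) ha'

end Pool.Agent.MP_521650_an
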